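import Pool.Agent.Q61.WT.Bal1

/-!
# Project WT, job BAL: the balanced monomials are good

Adapted from the file of helper210 for the project D3 (`Pool.Agent.Q210.D3.T2`).
-/

set_option autoImplicit false

namespace Pool.Agent.Q61.WT

open Pool.Agent.H204R3.CM
open Pool.Agent.Q60.D3 (AV IsHom cx mulF HasWeight conjF chi cxM S_L0 S_hodge)
open Pool.Agent.Q180.WT
open Pool.Agent.Q210.D3 (mulF_apply isHom_comp hw_comp isHom_fst isHom_snd hw_alt alt_cxM
  decomp hw_mul conjF_mul conjF_apply chi_eq split_mem sigE)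

variable {𝒟 : Set ℕ} {X Y : AV}

/-- Rational forms of degree two and weight zero are good. -/
theorem good_two (h9 : S_hodge) {κ : Type} [Fintype κ] [DecidableEq κ] (hκ : Nat.card κ = 2)
    (β : MultilinearMap ℚ (fun _ : κ => X.H) ℚ) (hβ : HasWeight X.per (cxM β) 0) :
    Good 𝒟 X κ (cxM β) := by
  unfold Good
  rw [alt_cxM]
  refine Submodule.subset_span ⟨_, Gen.divisor hκ _ ?_, rfl⟩
  rw [← h9, ← alt_cxM]
  exact hw_alt hβ

/-- A pair of linear forms with opposite weights is good. -/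
theorem good_pair (h2 : S_good_lin) (h8 : S_L0) (h9 : S_hodge) (h10 : S_wt)
    {A B : AV} (D : KO A 1) (D' : KO B 1) (hd : D'.d = D.d) (hs : D'.s = -D.s)
    (h : Fin 1 → (X.H →ₗ[ℚ] A.H)) (hh : ∀ k, IsHom X A (h k))
    (h' : Fin 1 → (X.H →ₗ[ℚ] B.H)) (hh' : ∀ k, IsHom X B (h' k)) :
    Good 𝒟 X (Fin 1 ⊕ Fin 1) (mulF (D.δ.toMultilinearMap.compLinearMap h)
      (D'.δ.toMultilinearMap.compLinearMap h')) := by
  set P := mulF (D.δ.toMultilinearMap.compLinearMap h) (D'.δ.toMultilinearMap.compLinearMap h')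
    with hP
  have hw : ∀ σ : ℂ ≃+* ℂ, HasWeight X.per (conjF σ P) 0 := by
    intro σ
    rw [hP, conjF_mul]
    have e1 := hw_comp (h10 A 1 D σ) h hh
    have e2 := hw_comp (h10 B 1 D' σ) h' hh'
    have e3 := hw_mul e1 e2
    have e4 : D.s * chi D.μ σ + D'.s * chi D'.μ σ = 0 := by
      have e5 : D'.μ * D'.μ = -(D.d : ℂ) := by rw [D'.hμ, hd]
      rw [chi_eq e5 D.hμ σ, hs]
      ring
    rw [e4] at e3
    exact e3
  obtain ⟨n, z, lam, hdec⟩ := decomp P
  rw [hdec]
  refine Submodule.sum_mem (goodSub h2 𝒟 X (Fin 1 ⊕ Fin 1)) fun j _ =>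
    Submodule.smul_mem _ _ ?_
  exact good_two h9 (by simp) _ (h8 X _ P hw (lam j))

/-! ## The base of the induction -/

theorem good_nil (h1 : S_good_alt) : Good 𝒟 X (V ([] : List (Fac 𝒟 X))) (val []) := by
  have _ : IsEmpty (V ([] : List (Fac 𝒟 X))) := inferInstanceAs (IsEmpty Empty)
  let f : X.H [⋀^V ([] : List (Fac 𝒟 X))]→ₗ[ℚ] ℚ := AlternatingMap.constOfIsEmpty ℚ X.H _ 1
  have e1 : val ([] : List (Fac 𝒟 X)) = (cx f).toMultilinearMap := by
    ext v
    change (1 : ℂ) = ((1 : ℚ) : ℂ)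
    simp
  rw [e1, h1]
  exact Submodule.subset_span ⟨_, Gen.unit _, rfl⟩

theorem big_eq_zero {l : List (Fac 𝒟 X)} (hc : cnt l = 0) {f : Fac 𝒟 X} (hf : f ∈ l) :
    f.big = 0 := by
  unfold cnt at hc
  rw [List.sum_eq_zero_iff] at hc
  exact hc _ (List.mem_map_of_mem hf)

theorem n_eq_one {l : List (Fac 𝒟 X)} (hc : cnt l = 0) {A : AV} {n : ℕ} {D : KO A n}
    {hD : n ≠ 1 → D.s ≠ 0 ∧ ∃ r ∈ 𝒟, n + D.s.natAbs = 2 * r}
    {h : Fin n → (X.H →ₗ[ℚ] A.H)} {hh : ∀ k, IsHom X A (h k)}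
    (hf : Fac.det A n D hD h hh ∈ l) : n = 1 := by
  have h1 : (if n = 1 then 0 else 1) = 0 := big_eq_zero hc hf
  by_contra h2
  rw [if_neg h2] at h1
  exact absurd h1 one_ne_zero

theorem exists_partner {A : AV} {D : KO A 1}
    {hD : 1 ≠ 1 → D.s ≠ 0 ∧ ∃ r ∈ 𝒟, 1 + D.s.natAbs = 2 * r} {h : Fin 1 → (X.H →ₗ[ℚ] A.H)}
    {hh : ∀ k, IsHom X A (h k)} {l : List (Fac 𝒟 X)} (hl : LBal (.det A 1 D hD h hh :: l))
    (hc : cnt l = 0) :
    ∃ (B : AV) (D' : KO B 1) (hD' : 1 ≠ 1 → D'.s ≠ 0 ∧ ∃ r ∈ 𝒟, 1 + D'.s.natAbs = 2 * r)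
      (h' : Fin 1 → (X.H →ₗ[ℚ] B.H)) (hh' : ∀ k, IsHom X B (h' k)),
      Fac.det B 1 D' hD' h' hh' ∈ l ∧ D'.d = D.d ∧ D'.s = -D.s := by
  by_contra hcon
  have h1 := hl D.d
  rw [List.map_cons, List.sum_cons] at h1
  have h2 : (Fac.det A 1 D hD h hh : Fac 𝒟 X).wt D.d = D.s := by
    change (if D.d = D.d then D.s else 0) = D.s
    rw [if_pos rfl]
  rw [h2] at h1
  have h3 : ∀ x ∈ (l.map fun f => D.s * f.wt D.d), 0 ≤ x := by
    intro x hx
    obtain ⟨f, hf, rfl⟩ := List.mem_map.1 hx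
    cases f with
    | bil β hβ =>
      change 0 ≤ D.s * 0
      rw [mul_zero]
    | det B m D' hD' h' hh' =>
      obtain rfl := n_eq_one hc hf
      change 0 ≤ D.s * (if D'.d = D.d then D'.s else 0)
      split_ifs with hd
      · by_cases hs : D'.s = -D.s
        · exact absurd ⟨B, D', hD', h', hh', hf, hd, hs⟩ hcon
        · rcases D.hs rfl with a | a <;> rcases D'.hs rfl with b | b <;> rw [a, b] at hs ⊢ <;>
            simp at hs ⊢
      · rw [mul_zero]
  have h4 := List.sum_nonneg h3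
  rw [List.sum_map_mul_left] at h4
  have h5 : (l.map fun f => f.wt D.d).sum = -D.s := by linarith
  rw [h5] at h4
  rcases D.hs rfl with a | a <;> rw [a] at h4 <;> simp at h4

theorem base (h1 : S_good_alt) (h2 : S_good_lin) (h3 : S_good_reindex) (h4 : S_good_mul)
    (h8 : S_L0) (h9 : S_hodge) (h10 : S_wt) :
    ∀ (n : ℕ) (l : List (Fac 𝒟 X)), l.length = n → cnt l = 0 → LBal l → Good 𝒟 X (V l) (val l) := by
  intro n
  induction n using Nat.strong_induction_on with
  | _ n ih =>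
    intro l hn hc hb
    cases l with
    | nil => exact good_nil h1
    | cons f l =>
      have hlen : (f :: l).length = l.length + 1 := List.length_cons
      cases f with
      | bil β hβ =>
        have hc' : cnt l = 0 := by
          have e1 : cnt (Fac.bil β hβ :: l) = 0 + cnt l := rfl
          rw [e1, zero_add] at hc
          exact hc
        have hb' : LBal l := by
          intro d
          have e1 := hb d
          rw [List.map_cons, List.sum_cons] at e1
          have e2 : (Fac.bil β hβ : Fac 𝒟 X).wt d = 0 := rfl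
          rw [e2, zero_add] at e1
          exact e1
        have e3 := ih l.length (by omega) l rfl hc' hb'
        exact h4 𝒟 X (Fin 2) (V l) (cxM β) (val l) (good_two h9 (by simp) β hβ) e3
      | det A m D hD h hh =>
        obtain rfl := n_eq_one hc (List.mem_cons_self)
        have hcl : cnt l = 0 := by
          have e1 : cnt (Fac.det A 1 D hD h hh :: l) = 0 + cnt l := rfl
          rw [e1, zero_add] at hc
          exact hc
        obtain ⟨B, D', hD', h', hh', hmem, hd, hs⟩ := exists_partner hb hcl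
        obtain ⟨l', hp⟩ := split_mem hmem
        have hp2 := hp.cons (Fac.det A 1 D hD h hh)
        have hlen2 := hp.length_eq
        rw [List.length_cons] at hlen2
        have hc2 := hc
        rw [cnt_perm hp2] at hc2
        have hc' : cnt l' = 0 := by
          have e1 : cnt (Fac.det A 1 D hD h hh :: Fac.det B 1 D' hD' h' hh' :: l') =
            0 + (0 + cnt l') := rfl
          rw [e1, zero_add, zero_add] at hc2
          exact hc2
        have hb' : LBal l' := by
          intro d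
          have e1 := (hb.perm hp2) d
          rw [List.map_cons, List.sum_cons, List.map_cons, List.sum_cons] at e1
          have e2 : (Fac.det A 1 D hD h hh : Fac 𝒟 X).wt d +
              (Fac.det B 1 D' hD' h' hh' : Fac 𝒟 X).wt d = 0 := by
            change (if D.d = d then D.s else 0) + (if D'.d = d then D'.s else 0) = 0
            rw [hd, hs]
            split_ifs
            · ring
            · rfl
          linarith
        have e3 := ih l'.length (by omega) l' rfl hc' hb'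
        have e4 := good_pair (𝒟 := 𝒟) h2 h8 h9 h10 D D' hd hs h hh h' hh'
        have e5 := h4 𝒟 X (Fin 1 ⊕ Fin 1) (V l') _ (val l') e4 e3
        refine good_perm h3 hp2.symm ?_
        exact good_eq h3 (Equiv.sumAssoc (Fin 1) (Fin 1) (V l'))
          (fun v => (mul_assoc _ _ _).symm) e5

theorem bal_list (h1 : S_good_alt) (h2 : S_good_lin) (h3 : S_good_reindex) (h4 : S_good_mul)
    (h6 : S_ins) (h7 : S_pol) (h8 : S_L0) (h9 : S_hodge) (h10 : S_wt) (h11 : S_weil)
    (h12 : S_pow) :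
    ∀ (c : ℕ) (X : AV) (l : List (Fac 𝒟 X)), cnt l = c → LBal l → Good 𝒟 X (V l) (val l) := by
  intro c
  induction c with
  | zero =>
    intro X l hc hb
    exact base h1 h2 h3 h4 h8 h9 h10 l.length l rfl hc hb
  | succ c ih =>
    intro X l hc hb
    have h0 : ∃ f ∈ l, f.big ≠ 0 := by
      by_contra hcon
      push Not at hcon
      have e1 : cnt l = 0 := by
        unfold cnt
        rw [List.sum_eq_zero_iff]
        intro x hx
        obtain ⟨f, hf, rfl⟩ := List.mem_map.1 hx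
        exact hcon f hf
      omega
    obtain ⟨f, hf, hf3⟩ := h0
    obtain ⟨l', hp⟩ := split_mem hf
    refine good_perm h3 hp.symm ?_
    have hc2 := hc
    rw [cnt_perm hp] at hc2
    have hb2 := hb.perm hp
    clear hp
    cases f with
    | bil β hβ => exact absurd rfl hf3
    | det A n D hD h hh =>
      have hn : n ≠ 1 := by
        intro hn
        apply hf3
        change (if n = 1 then 0 else 1) = 0
        rw [if_pos hn]
      have hc3 : cnt l' = c := by
        have e1 : cnt (Fac.det A n D hD h hh :: l') = (if n = 1 then 0 else 1) + cnt l' := rfl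
        rw [if_neg hn] at e1
        omega
      exact step h2 h3 h6 h7 h11 h12 hn D hD h hh l' hb2
        fun Y l'' e1 e2 => ih Y l'' (e1.trans hc3) e2

/-- JOB BAL. -/
theorem bal (h1 : S_good_alt) (h2 : S_good_lin) (h3 : S_good_reindex) (h4 : S_good_mul)
    (_h5 : S_good_pull) (h6 : S_ins) (h7 : S_pol) (h8 : S_L0) (h9 : S_hodge) (h10 : S_wt)
    (h11 : S_weil) (h12 : S_pow) : S_bal := by
  intro 𝒟 X κ _ _ M hM F hF
  let φ : Fin M.m → Fac 𝒟 X := fun j => .det (M.A j) (M.n j) (M.D j) (M.hD j) (M.h j) (M.hh j)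
  let ψ : Fin M.p → Fac 𝒟 X := fun q => .bil (M.β q) (M.hβ q)
  obtain ⟨e1, he1⟩ := val_ofFn φ
  obtain ⟨e2, he2⟩ := val_ofFn ψ
  obtain ⟨e3, he3⟩ := val_append (List.ofFn φ) (List.ofFn ψ)
  have hb : LBal (List.ofFn φ ++ List.ofFn ψ) := by
    intro d
    rw [List.map_append, List.sum_append, List.map_ofFn, List.map_ofFn, List.sum_ofFn,
      List.sum_ofFn]
    have e4 : ∑ q, ((fun f : Fac 𝒟 X => f.wt d) ∘ ψ) q = 0 := Finset.sum_eq_zero fun q _ => rfl
    rw [e4, add_zero]
    exact hM d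
  have hg := bal_list h1 h2 h3 h4 h6 h7 h8 h9 h10 h11 h12 _ X _ rfl hb
  let e4 : (Σ q, Fin (ψ q).N) ≃ Fin M.p × Fin 2 := Equiv.sigmaEquivProd (Fin M.p) (Fin 2)
  let e5 : V (List.ofFn φ ++ List.ofFn ψ) ≃ κ :=
    e3.symm.trans ((Equiv.sumCongr e1.symm (e2.symm.trans e4)).trans M.e)
  have e5l : ∀ (j : Fin M.m) (k : Fin (M.n j)), e5 (e3 (Sum.inl (e1 ⟨j, k⟩))) =
      M.e (Sum.inl ⟨j, k⟩) := by
    intro j k
    change M.e (Equiv.sumCongr e1.symm (e2.symm.trans e4) (e3.symm (e3 (Sum.inl (e1 ⟨j, k⟩))))) = _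
    rw [Equiv.symm_apply_apply]
    change M.e (Sum.inl (e1.symm (e1 ⟨j, k⟩))) = _
    rw [Equiv.symm_apply_apply]
    rfl
  have e5r : ∀ (q : Fin M.p) (a : Fin 2), e5 (e3 (Sum.inr (e2 ⟨q, a⟩))) =
      M.e (Sum.inr (q, a)) := by
    intro q a
    change M.e (Equiv.sumCongr e1.symm (e2.symm.trans e4) (e3.symm (e3 (Sum.inr (e2 ⟨q, a⟩))))) = _
    rw [Equiv.symm_apply_apply]
    change M.e (Sum.inr (e4 (e2.symm (e2 ⟨q, a⟩)))) = _
    rw [Equiv.symm_apply_apply]
    rfl
  refine good_eq h3 e5 (fun v => ?_) hg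
  rw [hF, he3, he1, he2]
  unfold Mon.val
  congr 1
  · refine Finset.prod_congr rfl fun j _ => ?_
    change _ = (M.D j).δ fun k => M.h j k (v (e5 (e3 (Sum.inl (e1 ⟨j, k⟩)))))
    congr 1
    funext k
    rw [e5l]
  · refine Finset.prod_congr rfl fun q _ => ?_
    change _ = ((M.β q fun a => v (e5 (e3 (Sum.inr (e2 ⟨q, a⟩)))) : ℚ) : ℂ)
    congr 2
    funext a
    rw [e5r]

end Pool.Agent.Q61.WT
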