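import Pool.Agent.Q180.WT.StmA
import Pool.Agent.Q251.D3.Ell

/-! Powers of elliptic curves with complex multiplication (lemma job POW of the project WT of
helper180). -/

set_option autoImplicit false

namespace Pool.Agent.Q61.WT

open Pool.Agent.H204R3.CM
open Pool.Agent.Q60.D3 (AV IsHom cx mulF HasWeight conjF chi cxM)
open Pool.Agent.Q180.WT

/-- the period map of the power -/
noncomputable def powPer (E : AV) (k : ℕ) : (Fin k → E.H) →+ (Fin k → E.T) where
  toFun v a := E.per (v a)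
  map_zero' := by
    funext a
    exact E.per.map_zero
  map_add' v w := by
    funext a
    exact E.per.map_add _ _

theorem powPer_apply (E : AV) (k : ℕ) (v : Fin k → E.H) (a : Fin k) :
    powPer E k v a = E.per (v a) := rfl

theorem span_powPer (E : AV) (k : ℕ) :
    Submodule.span ℝ (Set.range (powPer E k)) = ⊤ := by
  rw [eq_top_iff]
  intro u _
  have h1 : u = ∑ a : Fin k, Pi.single a (u a) := (Finset.univ_sum_single u).symm
  rw [h1]
  refine Submodule.sum_mem _ fun a _ => ?_
  have h2 : u a ∈ Submodule.span ℝ (Set.range E.per) := by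
    rw [E.span]
    exact Submodule.mem_top
  have h3 := Submodule.mem_map_of_mem (f := LinearMap.single ℝ (fun _ : Fin k => E.T) a) h2
  rw [Submodule.map_span] at h3
  refine Submodule.span_mono ?_ h3
  rintro _ ⟨_, ⟨w, rfl⟩, rfl⟩
  refine ⟨Pi.single a w, ?_⟩
  funext c
  rw [powPer_apply, LinearMap.coe_single]
  by_cases h : c = a
  · subst h
    rw [Pi.single_eq_same, Pi.single_eq_same]
  · rw [Pi.single_eq_of_ne h, Pi.single_eq_of_ne h, map_zero]

theorem pol_powPer (E : AV) (k : ℕ) : ∃ F : (Fin k → E.T) → (Fin k → E.T) → ℂ,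
    (∀ u', IsLinearMap ℂ fun u => F u u') ∧ (∀ u u', F u' u = starRingEnd ℂ (F u u')) ∧
    (∀ u, u ≠ 0 → 0 < (F u u).re) ∧
    ∀ v w, ∃ q : ℚ, (F (powPer E k v) (powPer E k w)).im = q := by
  obtain ⟨F, h1, h2, h3, h4⟩ := E.pol
  refine ⟨fun u v => ∑ a, F (u a) (v a), fun u' => ⟨fun x y => ?_, fun c x => ?_⟩,
    fun u u' => ?_, fun u hu => ?_, fun v w => ?_⟩
  · rw [← Finset.sum_add_distrib]
    exact Finset.sum_congr rfl fun a _ => (h1 (u' a)).map_add (x a) (y a)
  · rw [Finset.smul_sum]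
    exact Finset.sum_congr rfl fun a _ => (h1 (u' a)).map_smul c (x a)
  · rw [map_sum]
    exact Finset.sum_congr rfl fun a _ => h2 (u a) (u' a)
  · have e0 : ∀ a, 0 ≤ (F a a).re := by
      intro a
      by_cases ha : a = 0
      · have h : F 0 a = 0 := (h1 a).map_zero
        rw [ha] at h ⊢
        rw [h, Complex.zero_re]
      · exact (h3 a ha).le
    rw [Complex.re_sum]
    obtain ⟨a, ha⟩ := Function.ne_iff.1 hu
    exact Finset.sum_pos' (fun a _ => e0 _) ⟨a, Finset.mem_univ a, h3 _ ha⟩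
  · choose q hq using fun a => h4 (v a) (w a)
    refine ⟨∑ a, q a, ?_⟩
    rw [Complex.im_sum, Rat.cast_sum]
    exact Finset.sum_congr rfl fun a _ => hq a

/-- The power of an abelian variety. -/
noncomputable def powAV (E : AV) (k : ℕ) : AV where
  H := Fin k → E.H
  T := Fin k → E.T
  per := powPer E k
  span := span_powPer E k
  dim := by
    rw [Module.finrank_pi_fintype, Module.finrank_pi_fintype]
    simp only [E.dim, Finset.sum_const, Finset.card_univ, Fintype.card_fin, smul_eq_mul]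
    ring
  pol := pol_powPer E k

section

variable {H : Type} [AddCommGroup H] [Module ℚ H]

/-- the linear form of an alternating form of degree one -/
noncomputable def lin1 (δ : H [⋀^Fin 1]→ₗ[ℚ] ℂ) : H →ₗ[ℚ] ℂ where
  toFun x := δ fun _ => x
  map_add' x y := by
    have h := δ.map_update_add (fun _ => x) 0 x y
    have e : ∀ z : H, Function.update (fun _ : Fin 1 => x) 0 z = fun _ => z := by
      intro z
      funext i
      fin_cases i
      rfl
    rw [e, e, e] at h
    exact h
  map_smul' c x := by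
    have h := δ.map_update_smul (fun _ => x) 0 c x
    have e : ∀ z : H, Function.update (fun _ : Fin 1 => x) 0 z = fun _ => z := by
      intro z
      funext i
      fin_cases i
      rfl
    rw [e, e] at h
    exact h

theorem lin1_apply (δ : H [⋀^Fin 1]→ₗ[ℚ] ℂ) (x : H) : lin1 δ x = δ fun _ => x := rfl

/-- the coordinates of a vector of the power -/
noncomputable def rowM {k : ℕ} (ε : H →ₗ[ℚ] ℂ) : (Fin k → H) →ₗ[ℚ] (Fin k → ℂ) :=
  LinearMap.pi fun c => ε ∘ₗ LinearMap.proj c

theorem rowM_apply {k : ℕ} (ε : H →ₗ[ℚ] ℂ) (x : Fin k → H) (c : Fin k) :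
    rowM ε x c = ε (x c) := rfl

/-- the determinant of the coordinates -/
noncomputable def detF (k : ℕ) (ε : H →ₗ[ℚ] ℂ) : (Fin k → H) [⋀^Fin k]→ₗ[ℚ] ℂ where
  toMultilinearMap :=
    ((Matrix.detRowAlternating : (Fin k → ℂ) [⋀^Fin k]→ₗ[ℂ] ℂ).toMultilinearMap.restrictScalars
      ℚ).compLinearMap fun _ => rowM ε
  map_eq_zero_of_eq' v i j h hij := by
    change (Matrix.detRowAlternating : (Fin k → ℂ) [⋀^Fin k]→ₗ[ℂ] ℂ) (fun a => rowM ε (v a)) = 0
    exact AlternatingMap.map_eq_zero_of_eq _ _ (by rw [h]) hij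

theorem detF_apply (k : ℕ) (ε : H →ₗ[ℚ] ℂ) (y : Fin k → Fin k → H) :
    detF k ε y = (Matrix.of fun a c : Fin k => ε (y a c)).det := rfl

end

theorem eig_pow {H : Type} [AddCommGroup H] [Module ℚ H] (k : ℕ) (ε : H →ₗ[ℚ] ℂ)
    (φ : H →ₗ[ℚ] H) (μ : ℂ) (h0 : ∀ x : H, ε (φ x) = μ * ε x) (v : Fin k → Fin k → H) (a : Fin k) :
    detF k ε (Function.update v a
      ((LinearMap.pi fun c => φ ∘ₗ LinearMap.proj c : (Fin k → H) →ₗ[ℚ] (Fin k → H)) (v a))) =
      μ * detF k ε v := by
  rw [detF_apply, detF_apply]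
  have h1 : (Matrix.of fun b c : Fin k => ε (Function.update v a
      ((LinearMap.pi fun c => φ ∘ₗ LinearMap.proj c : (Fin k → H) →ₗ[ℚ] (Fin k → H))
        (v a)) b c)) =
      Matrix.updateRow (Matrix.of fun b c : Fin k => ε (v b c)) a
        (μ • (Matrix.of fun b c : Fin k => ε (v b c)) a) := by
    ext b c
    by_cases h : b = a
    · subst h
      rw [Matrix.updateRow_self, Matrix.of_apply, Function.update_self]
      exact h0 (v b c)
    · rw [Matrix.updateRow_ne h, Matrix.of_apply, Function.update_of_ne h]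
      rfl
  rw [h1, Matrix.det_updateRow_smul, Matrix.updateRow_eq_self]

/-- the data of the power -/
noncomputable def powKO (E : AV) (K : KO E 1) (k : ℕ) : KO (powAV E k) k where
  dimA := by
    change Module.finrank ℂ (Fin k → E.T) = k
    rw [Module.finrank_pi_fintype]
    simp only [K.dimA, Finset.sum_const, Finset.card_univ, Fintype.card_fin, smul_eq_mul, mul_one]
  φ := LinearMap.pi fun c => K.φ ∘ₗ LinearMap.proj c
  hφ := by
    obtain ⟨C, hC⟩ := K.hφ
    refine ⟨LinearMap.pi fun c => C ∘ₗ LinearMap.proj c, fun w => ?_⟩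
    funext c
    exact hC (w c)
  d := K.d
  hd := K.hd
  sq := by
    intro w
    funext c
    exact K.sq (w c)
  δ := detF k (lin1 K.δ)
  μ := K.μ
  hμ := K.hμ
  eig := by
    intro v a
    have h0 : ∀ x : E.H, lin1 K.δ (K.φ x) = K.μ * lin1 K.δ x := by
      intro x
      have h := K.eig (fun _ => x) 0
      have e : Function.update (fun _ : Fin 1 => x) 0 (K.φ x) = fun _ => K.φ x := by
        funext i
        fin_cases i
        rfl
      rw [e] at h
      exact h
    exact eig_pow k (lin1 K.δ) K.φ K.μ h0 v a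
  s := K.s * k
  hs := by
    intro h
    subst h
    simpa using K.hs rfl
  wt := by
    obtain ⟨ψ, h1, h2⟩ := K.wt
    let ε : E.T →ₗ[ℝ] ℂ :=
      { toFun := fun x => ψ fun _ => x
        map_add' := by
          intro x y
          have h := ψ.map_update_add (fun _ => x) 0 x y
          have e : ∀ z : E.T, Function.update (fun _ : Fin 1 => x) 0 z = fun _ => z := by
            intro z
            funext i
            fin_cases i
            rfl
          rw [e, e, e] at h
          exact h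
        map_smul' := by
          intro c x
          have h := ψ.map_update_smul (fun _ => x) 0 c x
          have e : ∀ z : E.T, Function.update (fun _ : Fin 1 => x) 0 z = fun _ => z := by
            intro z
            funext i
            fin_cases i
            rfl
          rw [e, e] at h
          exact h }
    have hε : ∀ x, ε x = ψ fun _ => x := fun x => rfl
    let R : (Fin k → E.T) →ₗ[ℝ] (Fin k → ℂ) := LinearMap.pi fun c => ε ∘ₗ LinearMap.proj c
    have hR : ∀ x c, R x c = ψ fun _ => x c := fun x c => rfl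
    refine ⟨((Matrix.detRowAlternating :
      (Fin k → ℂ) [⋀^Fin k]→ₗ[ℂ] ℂ).toMultilinearMap.restrictScalars ℝ).compLinearMap
        fun _ => R, fun v => ?_, fun z hz u => ?_⟩
    · change (Matrix.of fun a c : Fin k => R (powPer E k (v a)) c).det =
        (Matrix.of fun a c : Fin k => lin1 K.δ (v a c)).det
      congr 1
      ext a c
      exact h1 fun _ => v a c
    · change (Matrix.of fun a c : Fin k => R (z • u a) c).det =
        z ^ (K.s * (k : ℤ)) * (Matrix.of fun a c : Fin k => R (u a) c).det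
      have h3 : (Matrix.of fun a c : Fin k => R (z • u a) c) =
          (z ^ K.s) • (Matrix.of fun a c : Fin k => R (u a) c) := by
        ext a c
        exact h2 z hz fun _ => u a c
      rw [h3, Matrix.det_smul, Fintype.card_fin, zpow_mul, zpow_natCast]

theorem hasEll_pow (E : AV) (K : KO E 1) (k : ℕ) (hk : 0 < k) :
    HasEll (powAV E k) (powKO E K k).φ := by
  refine ⟨E, K.φ, LinearMap.pi fun _ => LinearMap.id, K.dimA, K.hφ,
    ⟨LinearMap.pi fun _ => LinearMap.id, fun w => rfl⟩, ?_, fun w => rfl⟩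
  intro h
  have h1 : Module.finrank ℚ E.H = 2 := by
    rw [E.dim, K.dimA]
  have h2 : 0 < Module.finrank ℚ E.H := by omega
  obtain ⟨x, hx⟩ := (Module.finrank_pos_iff_exists_ne_zero (R := ℚ) (M := E.H)).1 h2
  have h3 := congrFun (LinearMap.congr_fun h x) ⟨0, hk⟩
  exact hx h3

/-! ### The determinant of the product -/

theorem sum_det {k : ℕ} (M : Matrix (Fin k ⊕ Fin k) (Fin k ⊕ Fin k) ℂ) :
    (∑ σ : Equiv.Perm (Fin k ⊕ Fin k), ((Equiv.Perm.sign σ : ℤ) : ℂ) *
      ((Matrix.of fun a c : Fin k => M (σ (Sum.inl a)) (Sum.inl c)).det *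
        (Matrix.of fun a c : Fin k => M (σ (Sum.inr a)) (Sum.inr c)).det)) =
      ((Nat.factorial k : ℕ) : ℂ) * ((Nat.factorial k : ℕ) : ℂ) * M.det := by
  have h1 : ∀ σ : Equiv.Perm (Fin k ⊕ Fin k), ((Equiv.Perm.sign σ : ℤ) : ℂ) *
      ((Matrix.of fun a c : Fin k => M (σ (Sum.inl a)) (Sum.inl c)).det *
        (Matrix.of fun a c : Fin k => M (σ (Sum.inr a)) (Sum.inr c)).det) =
      ∑ τ : Equiv.Perm (Fin k), ∑ τ' : Equiv.Perm (Fin k),
        (((Equiv.Perm.sign (σ * Equiv.Perm.sumCongr τ τ') : ℤ) : ℂ) *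
          ∏ r, M ((σ * Equiv.Perm.sumCongr τ τ') r) r) := by
    intro σ
    rw [Matrix.det_apply', Matrix.det_apply', Finset.sum_mul_sum, Finset.mul_sum]
    refine Finset.sum_congr rfl fun τ _ => ?_
    rw [Finset.mul_sum]
    refine Finset.sum_congr rfl fun τ' _ => ?_
    rw [Fintype.prod_sum_type, Equiv.Perm.sign_mul, Equiv.Perm.sign_sumCongr]
    simp only [Matrix.of_apply, Equiv.Perm.coe_mul, Function.comp_apply,
      Equiv.sumCongr_apply, Sum.map_inl, Sum.map_inr, Units.val_mul, Int.cast_mul]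
    ring
  rw [Finset.sum_congr rfl fun σ _ => h1 σ, Finset.sum_comm]
  have h2 : ∀ τ : Equiv.Perm (Fin k), (∑ σ : Equiv.Perm (Fin k ⊕ Fin k),
      ∑ τ' : Equiv.Perm (Fin k), (((Equiv.Perm.sign (σ * Equiv.Perm.sumCongr τ τ') : ℤ) : ℂ) *
          ∏ r, M ((σ * Equiv.Perm.sumCongr τ τ') r) r)) = ((Nat.factorial k : ℕ) : ℂ) * M.det := by
    intro τ
    rw [Finset.sum_comm]
    have h3 : ∀ τ' : Equiv.Perm (Fin k), (∑ σ : Equiv.Perm (Fin k ⊕ Fin k),
        (((Equiv.Perm.sign (σ * Equiv.Perm.sumCongr τ τ') : ℤ) : ℂ) *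
          ∏ r, M ((σ * Equiv.Perm.sumCongr τ τ') r) r)) = M.det := by
      intro τ'
      rw [Matrix.det_apply']
      exact Fintype.sum_equiv (Equiv.mulRight (Equiv.Perm.sumCongr τ τ')) _ _ fun σ => rfl
    rw [Finset.sum_congr rfl fun τ' _ => h3 τ', Finset.sum_const, Finset.card_univ,
      Fintype.card_perm, Fintype.card_fin, nsmul_eq_mul]
  rw [Finset.sum_congr rfl fun τ _ => h2 τ, Finset.sum_const, Finset.card_univ,
    Fintype.card_perm, Fintype.card_fin, nsmul_eq_mul, mul_assoc]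

theorem det_blocks_ne {k : ℕ} (a b c d : ℂ) (h : a * d - c * b ≠ 0) :
    (Matrix.fromBlocks (a • (1 : Matrix (Fin k) (Fin k) ℂ)) (b • (1 : Matrix (Fin k) (Fin k) ℂ))
      (c • (1 : Matrix (Fin k) (Fin k) ℂ)) (d • (1 : Matrix (Fin k) (Fin k) ℂ))).det ≠ 0 := by
  obtain ⟨D, hD⟩ : ∃ D, D = a * d - c * b := ⟨_, rfl⟩
  have h' : D ≠ 0 := hD ▸ h
  have h1 : Matrix.fromBlocks (a • (1 : Matrix (Fin k) (Fin k) ℂ))
      (b • (1 : Matrix (Fin k) (Fin k) ℂ)) (c • (1 : Matrix (Fin k) (Fin k) ℂ))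
      (d • (1 : Matrix (Fin k) (Fin k) ℂ)) *
      Matrix.fromBlocks ((d / D) • (1 : Matrix (Fin k) (Fin k) ℂ))
        ((-b / D) • (1 : Matrix (Fin k) (Fin k) ℂ)) ((-c / D) • (1 : Matrix (Fin k) (Fin k) ℂ))
        ((a / D) • (1 : Matrix (Fin k) (Fin k) ℂ)) = 1 := by
    rw [Matrix.fromBlocks_multiply]
    have e : ∀ x y z w : ℂ, (x • (1 : Matrix (Fin k) (Fin k) ℂ)) * (y • 1) +
        (z • (1 : Matrix (Fin k) (Fin k) ℂ)) * (w • 1) = (x * y + z * w) • 1 := by
      intro x y z w
      rw [smul_mul_smul_comm, smul_mul_smul_comm, mul_one, add_smul]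
    rw [e, e, e, e]
    have e1 : a * (d / D) + b * (-c / D) = 1 := by
      field_simp
      linear_combination -hD
    have e2 : a * (-b / D) + b * (a / D) = 0 := by
      field_simp
      ring
    have e3 : c * (d / D) + d * (-c / D) = 0 := by
      field_simp
      ring
    have e4 : c * (-b / D) + d * (a / D) = 1 := by
      field_simp
      linear_combination -hD
    rw [e1, e2, e3, e4, one_smul, zero_smul, Matrix.fromBlocks_one]
  intro h2
  have h3 := congrArg Matrix.det h1
  rw [Matrix.det_mul, h2, zero_mul, Matrix.det_one] at h3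
  exact zero_ne_one h3

/-- the basis of the homology of the power -/
noncomputable def powBasis {E : AV} (b : Module.Basis (Fin 2) ℚ E.H) (k : ℕ) :
    Module.Basis (Fin k ⊕ Fin k) ℚ (Fin k → E.H) :=
  (Pi.basis fun _ : Fin k => b).reindex
    { toFun := fun x => if x.2 = 0 then Sum.inl x.1 else Sum.inr x.1
      invFun := fun y => Sum.elim (fun a => ⟨a, 0⟩) (fun a => ⟨a, 1⟩) y
      left_inv := by
        rintro ⟨a, i⟩
        fin_cases i <;> rfl
      right_inv := by
        rintro (a | a) <;> rfl }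

theorem powBasis_inl {E : AV} (b : Module.Basis (Fin 2) ℚ E.H) (k : ℕ) (a : Fin k) :
    powBasis b k (Sum.inl a) = Pi.single a (b 0) := by
  unfold powBasis
  rw [Module.Basis.reindex_apply]
  exact Pi.basis_apply _ _

theorem powBasis_inr {E : AV} (b : Module.Basis (Fin 2) ℚ E.H) (k : ℕ) (a : Fin k) :
    powBasis b k (Sum.inr a) = Pi.single a (b 1) := by
  unfold powBasis
  rw [Module.Basis.reindex_apply]
  exact Pi.basis_apply _ _

theorem pow : S_pow := by
  intro d hd μ hμ k hk
  obtain ⟨E, b, K0, L0, e1, e2, e3, e4, e5, e6, hne⟩ := Pool.Agent.Q251.D3.t_ELL d hd μ hμ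
  have conv : ∀ K : Pool.Agent.Q60.D3.KOn E 1, ∃ K' : KO E 1, K'.d = K.d ∧ K'.μ = K.μ ∧
      K'.s = K.s ∧ K'.δ = K.δ := by
    intro K
    exact ⟨⟨K.dimA, K.φ, K.hφ, K.d, K.hd, K.sq, K.δ, K.μ, K.hμ, K.eig, K.s, fun _ => K.hs, K.wt⟩,
      rfl, rfl, rfl, rfl⟩
  obtain ⟨K, k1, k2, k3, k4⟩ := conv K0
  obtain ⟨K', l1, l2, l3, l4⟩ := conv L0
  rw [← k4, ← l4] at hne
  refine ⟨E, K, K', powAV E k, fun a => LinearMap.proj a, powKO E K k, powKO E K' k,
    powBasis b k, fun a => ⟨LinearMap.proj a, fun w => rfl⟩, k1.trans e1, l1.trans e2,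
    k2.trans e3, l2.trans e4, k3.trans e5, l3.trans e6, k1.trans e1, l1.trans e2, k2.trans e3,
    l2.trans e4, ?_, ?_, fun y => rfl, fun y => rfl, hasEll_pow E K k hk, hasEll_pow E K' k hk, ?_⟩
  · change K.s * (k : ℤ) = k
    rw [k3, e5, one_mul]
  · change K'.s * (k : ℤ) = -(k : ℤ)
    rw [l3, e6]
    ring
  · have h1 : (Matrix.of fun r c : Fin k ⊕ Fin k => Sum.elim
        (fun c => lin1 K.δ (powBasis b k r c)) (fun c => lin1 K'.δ (powBasis b k r c)) c) =
        Matrix.fromBlocks ((lin1 K.δ (b 0)) • (1 : Matrix (Fin k) (Fin k) ℂ))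
          ((lin1 K'.δ (b 0)) • (1 : Matrix (Fin k) (Fin k) ℂ))
          ((lin1 K.δ (b 1)) • (1 : Matrix (Fin k) (Fin k) ℂ))
          ((lin1 K'.δ (b 1)) • (1 : Matrix (Fin k) (Fin k) ℂ)) := by
      have e : ∀ (f : E.H →ₗ[ℚ] ℂ) (x : E.H) (a c : Fin k),
          f ((Pi.single a x : Fin k → E.H) c) = (f x • (1 : Matrix (Fin k) (Fin k) ℂ)) a c := by
        clear hne
        intro f x a c
        rw [Matrix.smul_apply, Matrix.one_apply]
        by_cases h : a = c
        · subst h
          rw [Pi.single_eq_same, if_pos rfl, smul_eq_mul, mul_one]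
        · rw [Pi.single_eq_of_ne (Ne.symm h), if_neg h, map_zero, smul_zero]
      ext r c
      rcases r with a | a <;> rcases c with c | c
      · rw [Matrix.of_apply, Matrix.fromBlocks_apply₁₁, Sum.elim_inl, powBasis_inl, e]
      · rw [Matrix.of_apply, Matrix.fromBlocks_apply₁₂, Sum.elim_inr, powBasis_inl, e]
      · rw [Matrix.of_apply, Matrix.fromBlocks_apply₂₁, Sum.elim_inl, powBasis_inr, e]
      · rw [Matrix.of_apply, Matrix.fromBlocks_apply₂₂, Sum.elim_inr, powBasis_inr, e]
    have h2 := sum_det (Matrix.of fun r c : Fin k ⊕ Fin k => Sum.elim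
        (fun c => lin1 K.δ (powBasis b k r c)) (fun c => lin1 K'.δ (powBasis b k r c)) c)
    refine ne_of_eq_of_ne h2 ?_
    rw [h1]
    refine mul_ne_zero (mul_ne_zero ?_ ?_) ?_
    · exact_mod_cast Nat.factorial_ne_zero k
    · exact_mod_cast Nat.factorial_ne_zero k
    · refine det_blocks_ne _ _ _ _ ?_
      rw [lin1_apply, lin1_apply, lin1_apply, lin1_apply]
      intro h3
      apply hne
      linear_combination h3

end Pool.Agent.Q61.WT
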