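import Pool.Agent.Q180.WT.StmA
import Pool.Agent.Q210.D3.T2

/-!
# Project WT, job BAL: lists of factors, the balanced monomials are good

Adapted from the files of helper210 for the project D3 (`Pool.Agent.Q210.D3.T2a`, `T2`).
-/

set_option autoImplicit false

namespace Pool.Agent.Q61.WT

open Pool.Agent.H204R3.CM
open Pool.Agent.Q60.D3 (AV IsHom cx mulF HasWeight conjF chi cxM S_L0 S_hodge)
open Pool.Agent.Q180.WT
open Pool.Agent.Q210.D3 (mulF_apply isHom_comp hw_comp isHom_fst isHom_snd hw_alt alt_cxM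
  decomp hw_mul conjF_mul conjF_apply chi_eq split_mem sigE)

/-- A factor of a monomial. -/
inductive Fac (𝒟 : Set ℕ) (X : AV) : Type 1
  | det (A : AV) (n : ℕ) (D : KO A n)
      (hD : n ≠ 1 → D.s ≠ 0 ∧ ∃ r ∈ 𝒟, n + D.s.natAbs = 2 * r)
      (h : Fin n → (X.H →ₗ[ℚ] A.H)) (hh : ∀ k, IsHom X A (h k)) : Fac 𝒟 X
  | bil (β : MultilinearMap ℚ (fun _ : Fin 2 => X.H) ℚ) (hβ : HasWeight X.per (cxM β) 0) : Fac 𝒟 X

variable {𝒟 : Set ℕ} {X Y : AV}

/-- The number of the variables. -/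
def Fac.N : Fac 𝒟 X → ℕ
  | .det _ n _ _ _ _ => n
  | .bil _ _ => 2

/-- The form. -/
noncomputable def Fac.F : (f : Fac 𝒟 X) → MultilinearMap ℚ (fun _ : Fin f.N => X.H) ℂ
  | .det _ _ D _ h _ => D.δ.toMultilinearMap.compLinearMap h
  | .bil β _ => cxM β

/-- The weight. -/
def Fac.wt : Fac 𝒟 X → ℕ → ℤ
  | .det _ _ D _ _ _, d => if D.d = d then D.s else 0
  | .bil _ _, _ => 0

/-- Is it a determinant of size different from one? -/
def Fac.big : Fac 𝒟 X → ℕ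
  | .det _ n _ _ _ _ => if n = 1 then 0 else 1
  | .bil _ _ => 0

/-- The variables of the product of a list. -/
def V : List (Fac 𝒟 X) → Type
  | [] => Empty
  | f :: l => Fin f.N ⊕ V l

instance instFV : (l : List (Fac 𝒟 X)) → Fintype (V l)
  | [] => inferInstanceAs (Fintype Empty)
  | f :: l => by
    have _ := instFV l
    exact inferInstanceAs (Fintype (Fin f.N ⊕ V l))

instance instDV : (l : List (Fac 𝒟 X)) → DecidableEq (V l)
  | [] => inferInstanceAs (DecidableEq Empty)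
  | f :: l => by
    have _ := instDV l
    exact inferInstanceAs (DecidableEq (Fin f.N ⊕ V l))

/-- The product of a list. -/
noncomputable def val : (l : List (Fac 𝒟 X)) → MultilinearMap ℚ (fun _ : V l => X.H) ℂ
  | [] => MultilinearMap.constOfIsEmpty ℚ (fun _ : Empty => X.H) (1 : ℂ)
  | f :: l => mulF f.F (val l)

theorem val_cons (f : Fac 𝒟 X) (l : List (Fac 𝒟 X)) (v : Fin f.N ⊕ V l → X.H) :
    val (f :: l) v = f.F (fun k => v (Sum.inl k)) * val l (fun k => v (Sum.inr k)) := rfl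

theorem good_eq (h3 : S_good_reindex) {κ κ' : Type} [Fintype κ] [DecidableEq κ] [Fintype κ']
    [DecidableEq κ'] (e : κ ≃ κ') {F : MultilinearMap ℚ (fun _ : κ => X.H) ℂ}
    {F' : MultilinearMap ℚ (fun _ : κ' => X.H) ℂ} (h : ∀ v, F' v = F fun k => v (e k))
    (hF : Good 𝒟 X κ F) : Good 𝒟 X κ' F' := by
  have h1 := h3 𝒟 X κ κ' e F hF
  have h2 : F.domDomCongr e = F' := by
    ext v
    rw [h v]
    rfl
  rwa [h2] at h1

theorem perm_val {l l' : List (Fac 𝒟 X)} (h : l.Perm l') :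
    ∃ e : V l ≃ V l', ∀ v : V l' → X.H, val l' v = val l (fun k => v (e k)) := by
  induction h with
  | nil => exact ⟨Equiv.refl _, fun v => rfl⟩
  | cons x _ ih =>
    obtain ⟨e, he⟩ := ih
    refine ⟨Equiv.sumCongr (Equiv.refl (Fin x.N)) e, fun v => ?_⟩
    refine (val_cons _ _ v).trans ?_
    rw [he]
    rfl
  | swap x y l =>
    refine ⟨((Equiv.sumAssoc (Fin y.N) (Fin x.N) (V l)).symm.trans
      ((Equiv.sumComm (Fin y.N) (Fin x.N)).sumCongr (Equiv.refl (V l)))).trans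
      (Equiv.sumAssoc (Fin x.N) (Fin y.N) (V l)), fun v => ?_⟩
    refine (val_cons _ _ v).trans ?_
    refine (congrArg (fun t => x.F (fun k => v (Sum.inl k)) * t) (val_cons y l _)).trans ?_
    refine Eq.trans ?_ (val_cons _ _ _).symm
    refine Eq.trans ?_ (congrArg _ (val_cons _ _ _).symm)
    refine (mul_left_comm _ _ _).trans ?_
    rfl
  | trans _ _ ih1 ih2 =>
    obtain ⟨e1, h1⟩ := ih1
    obtain ⟨e2, h2⟩ := ih2
    exact ⟨e1.trans e2, fun v => (h2 v).trans (h1 _)⟩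

theorem good_perm (h3 : S_good_reindex) {l l' : List (Fac 𝒟 X)} (h : l.Perm l')
    (hl : Good 𝒟 X (V l) (val l)) : Good 𝒟 X (V l') (val l') := by
  obtain ⟨e, he⟩ := perm_val h
  exact good_eq h3 e he hl

/-- The pull-back of a factor. -/
def Fac.pull (g : Y.H →ₗ[ℚ] X.H) (hg : IsHom Y X g) : Fac 𝒟 X → Fac 𝒟 Y
  | .det A n D hD h hh => .det A n D hD (fun k => (h k).comp g) (fun k => isHom_comp (hh k) hg)
  | .bil β hβ => .bil (β.compLinearMap fun _ => g) (hw_comp hβ (fun _ => g) fun _ => hg)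

theorem pull_wt (g : Y.H →ₗ[ℚ] X.H) (hg : IsHom Y X g) (f : Fac 𝒟 X) (d : ℕ) :
    (f.pull g hg).wt d = f.wt d := by
  cases f <;> rfl

theorem pull_big (g : Y.H →ₗ[ℚ] X.H) (hg : IsHom Y X g) (f : Fac 𝒟 X) :
    (f.pull g hg).big = f.big := by
  cases f <;> rfl

theorem val_pull (g : Y.H →ₗ[ℚ] X.H) (hg : IsHom Y X g) (l : List (Fac 𝒟 X)) :
    ∃ e : V (l.map (Fac.pull g hg)) ≃ V l, ∀ v : V (l.map (Fac.pull g hg)) → Y.H,
      val (l.map (Fac.pull g hg)) v = val l (fun k => g (v (e.symm k))) := by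
  induction l with
  | nil => exact ⟨Equiv.refl _, fun v => rfl⟩
  | cons f l ih =>
    obtain ⟨e, he⟩ := ih
    cases f with
    | det A n D hD h hh =>
      refine ⟨Equiv.sumCongr (Equiv.refl (Fin n)) e, fun v => ?_⟩
      refine (val_cons _ _ v).trans ?_
      rw [he]
      rfl
    | bil β hβ =>
      refine ⟨Equiv.sumCongr (Equiv.refl (Fin 2)) e, fun v => ?_⟩
      refine (val_cons _ _ v).trans ?_
      rw [he]
      rfl

/-- A list is balanced. -/
def LBal (l : List (Fac 𝒟 X)) : Prop := ∀ d : ℕ, (l.map fun f => f.wt d).sum = 0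

/-- The number of determinants of size different from one. -/
def cnt (l : List (Fac 𝒟 X)) : ℕ := (l.map Fac.big).sum

theorem LBal.perm {l l' : List (Fac 𝒟 X)} (h : l.Perm l') (hl : LBal l) : LBal l' := by
  intro d
  rw [← hl d]
  exact ((h.map _).sum_eq).symm

theorem cnt_perm {l l' : List (Fac 𝒟 X)} (h : l.Perm l') : cnt l = cnt l' := (h.map _).sum_eq

/-- The power of an elliptic curve for a determinant of weight different from zero. -/
theorem pw (h12 : S_pow) {A : AV} {n : ℕ} (D : KO A n) (hs : D.s ≠ 0) :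
    ∃ (E : AV) (K : KO E 1) (Y : AV) (pr : Fin D.s.natAbs → (Y.H →ₗ[ℚ] E.H))
      (L : KO Y D.s.natAbs) (η : Y.H [⋀^Fin D.s.natAbs]→ₗ[ℚ] ℂ)
      (b : Module.Basis (Fin D.s.natAbs ⊕ Fin D.s.natAbs) ℚ Y.H), (∀ a, IsHom Y E (pr a)) ∧
      K.d = D.d ∧ (D.s.natAbs : ℤ) * K.s = D.s ∧ L.d = D.d ∧ L.μ = D.μ ∧ L.s = -D.s ∧
      (∀ y : Fin D.s.natAbs → Y.H,
        η y = (Matrix.of fun a c : Fin D.s.natAbs => K.δ fun _ => pr c (y a)).det) ∧
      HasEll Y L.φ ∧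
      (∑ σ : Equiv.Perm (Fin D.s.natAbs ⊕ Fin D.s.natAbs), ((Equiv.Perm.sign σ : ℤ) : ℂ) *
        (η (fun a => b (σ (Sum.inl a))) * L.δ (fun a => b (σ (Sum.inr a))))) ≠ 0 := by
  obtain ⟨E, K, K', Y, pr, L, L', b, a1, a2, a3, a4, a5, a6, a7, a8, a9, a10, a11, a12, a13,
    a14, a15, a16, a17, a18⟩ := h12 D.d D.hd D.μ D.hμ D.s.natAbs (Int.natAbs_pos.2 hs)
  rcases lt_or_gt_of_ne hs with h | h
  · have e1 : (D.s.natAbs : ℤ) = -D.s := Int.ofNat_natAbs_of_nonpos h.le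
    refine ⟨E, K', Y, pr, L, L'.δ, b, a1, a3, ?_, a8, a10, ?_, a15, a16, ?_⟩
    · rw [e1, a7]
      ring
    · rw [a12, e1]
    · intro h0
      apply a18
      have h1 : ∀ σ : Equiv.Perm (Fin D.s.natAbs ⊕ Fin D.s.natAbs),
          ((Equiv.Perm.sign σ : ℤ) : ℂ) *
          (L.δ (fun a => b (σ (Sum.inl a))) * L'.δ (fun a => b (σ (Sum.inr a)))) =
          ((Equiv.Perm.sign (Equiv.sumComm (Fin D.s.natAbs) (Fin D.s.natAbs) :
            Equiv.Perm (Fin D.s.natAbs ⊕ Fin D.s.natAbs)) : ℤ) : ℂ) *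
          (((Equiv.Perm.sign (σ * (Equiv.sumComm (Fin D.s.natAbs) (Fin D.s.natAbs) :
            Equiv.Perm (Fin D.s.natAbs ⊕ Fin D.s.natAbs))) : ℤ) : ℂ) *
          (L'.δ (fun a => b ((σ * (Equiv.sumComm (Fin D.s.natAbs) (Fin D.s.natAbs) :
            Equiv.Perm (Fin D.s.natAbs ⊕ Fin D.s.natAbs))) (Sum.inl a))) *
          L.δ (fun a => b ((σ * (Equiv.sumComm (Fin D.s.natAbs) (Fin D.s.natAbs) :
            Equiv.Perm (Fin D.s.natAbs ⊕ Fin D.s.natAbs))) (Sum.inr a))))) := by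
        intro σ
        rw [Equiv.Perm.sign_mul]
        have e2 : ((Equiv.Perm.sign (Equiv.sumComm (Fin D.s.natAbs) (Fin D.s.natAbs) :
            Equiv.Perm (Fin D.s.natAbs ⊕ Fin D.s.natAbs)) : ℤ) : ℂ) *
            ((Equiv.Perm.sign (Equiv.sumComm (Fin D.s.natAbs) (Fin D.s.natAbs) :
            Equiv.Perm (Fin D.s.natAbs ⊕ Fin D.s.natAbs)) : ℤ) : ℂ) = 1 := by
          rw [← Int.cast_mul, ← Units.val_mul, Int.units_mul_self]
          simp
        simp only [Equiv.Perm.coe_mul, Function.comp_apply, Equiv.sumComm_apply, Sum.swap_inl,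
          Sum.swap_inr, Units.val_mul, Int.cast_mul]
        linear_combination (-((Equiv.Perm.sign σ : ℤ) : ℂ) *
          (L.δ (fun a => b (σ (Sum.inl a))) * L'.δ (fun a => b (σ (Sum.inr a))))) * e2
      rw [Finset.sum_congr rfl fun σ _ => h1 σ, ← Finset.mul_sum]
      have h2 := Fintype.sum_equiv (Equiv.mulRight (Equiv.sumComm (Fin D.s.natAbs)
        (Fin D.s.natAbs) : Equiv.Perm (Fin D.s.natAbs ⊕ Fin D.s.natAbs)))
        (fun σ => ((Equiv.Perm.sign (σ * (Equiv.sumComm (Fin D.s.natAbs) (Fin D.s.natAbs) :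
            Equiv.Perm (Fin D.s.natAbs ⊕ Fin D.s.natAbs))) : ℤ) : ℂ) *
          (L'.δ (fun a => b ((σ * (Equiv.sumComm (Fin D.s.natAbs) (Fin D.s.natAbs) :
            Equiv.Perm (Fin D.s.natAbs ⊕ Fin D.s.natAbs))) (Sum.inl a))) *
          L.δ (fun a => b ((σ * (Equiv.sumComm (Fin D.s.natAbs) (Fin D.s.natAbs) :
            Equiv.Perm (Fin D.s.natAbs ⊕ Fin D.s.natAbs))) (Sum.inr a)))))
        (fun σ => ((Equiv.Perm.sign σ : ℤ) : ℂ) *
          (L'.δ (fun a => b (σ (Sum.inl a))) * L.δ (fun a => b (σ (Sum.inr a)))))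
        fun σ => rfl
      rw [h2, h0, mul_zero]
  · have e1 : (D.s.natAbs : ℤ) = D.s := Int.natAbs_of_nonneg h.le
    refine ⟨E, K, Y, pr, L', L.δ, b, a1, a2, ?_, a9, a11, ?_, a14, a17, a18⟩
    · rw [e1, a6]
      ring
    · rw [a13, e1]

theorem val_append (l l' : List (Fac 𝒟 X)) :
    ∃ e : V l ⊕ V l' ≃ V (l ++ l'), ∀ v : V (l ++ l') → X.H,
      val (l ++ l') v = val l (fun k => v (e (Sum.inl k))) * val l' (fun k => v (e (Sum.inr k))) := by
  induction l with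
  | nil =>
    refine ⟨Equiv.emptySum Empty (V l'), fun v => ?_⟩
    refine (one_mul _).symm.trans ?_
    rfl
  | cons f l ih =>
    obtain ⟨e, he⟩ := ih
    refine ⟨(Equiv.sumAssoc (Fin f.N) (V l) (V l')).trans
      (Equiv.sumCongr (Equiv.refl (Fin f.N)) e), fun v => ?_⟩
    refine (val_cons _ _ v).trans ?_
    refine (congrArg _ (he fun k => v (Sum.inr k))).trans ?_
    exact (mul_assoc _ _ _).symm

theorem val_ofFn {m : ℕ} (φ : Fin m → Fac 𝒟 X) :
    ∃ e : (Σ j, Fin (φ j).N) ≃ V (List.ofFn φ), ∀ v : V (List.ofFn φ) → X.H,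
      val (List.ofFn φ) v = ∏ j, (φ j).F fun k => v (e ⟨j, k⟩) := by
  induction m with
  | zero =>
    have h0 : List.ofFn φ = [] := List.ofFn_zero
    rw [h0]
    have _ : IsEmpty (V ([] : List (Fac 𝒟 X))) := inferInstanceAs (IsEmpty Empty)
    refine ⟨Equiv.equivOfIsEmpty _ _, fun v => ?_⟩
    rw [Finset.univ_eq_empty, Finset.prod_empty]
    rfl
  | succ m ih =>
    obtain ⟨e, he⟩ := ih fun j => φ j.succ
    have h0 : List.ofFn φ = φ 0 :: List.ofFn fun j => φ j.succ := List.ofFn_succ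
    rw [h0]
    refine ⟨(sigE fun j => (φ j).N).trans (Equiv.sumCongr (Equiv.refl _) e), fun v => ?_⟩
    refine (val_cons _ _ v).trans ?_
    rw [he, Fin.prod_univ_succ]
    rfl

/-- The good forms as a subspace. -/
noncomputable def goodSub (h2 : S_good_lin) (𝒟 : Set ℕ) (X : AV) (κ : Type) [Fintype κ]
    [DecidableEq κ] : Submodule ℂ (MultilinearMap ℚ (fun _ : κ => X.H) ℂ) :=
  { carrier := {F | Good 𝒟 X κ F}
    zero_mem' := (h2 𝒟 X κ).2.2
    add_mem' := fun {a b} ha hb => (h2 𝒟 X κ).1 a b ha hb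
    smul_mem' := fun c a ha => (h2 𝒟 X κ).2.1 c a ha }

/-- The list of the coordinates on the power of the elliptic curve. -/
noncomputable def pl (𝒟 : Set ℕ) (X : AV) {E Y : AV} (K : KO E 1) {k : ℕ}
    (pr : Fin k → (Y.H →ₗ[ℚ] E.H)) (hpr : ∀ a, IsHom Y E (pr a)) : Fin k → Fac 𝒟 (X.prod Y) :=
  fun c => .det E 1 K (fun h => absurd rfl h) (fun _ => (pr c).comp (LinearMap.snd ℚ X.H Y.H))
    fun _ => isHom_comp (hpr c) (isHom_snd X Y)

/-- The first good form of the induction step. -/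
theorem step_F (h2 : S_good_lin) (h3 : S_good_reindex) {E Y : AV} (K : KO E 1) {k : ℕ}
    (pr : Fin k → (Y.H →ₗ[ℚ] E.H)) (hpr : ∀ a, IsHom Y E (pr a))
    (η : Y.H [⋀^Fin k]→ₗ[ℚ] ℂ)
    (hη : ∀ y : Fin k → Y.H, η y = (Matrix.of fun a c : Fin k => K.δ fun _ => pr c (y a)).det)
    (l : List (Fac 𝒟 X))
    (hg : Good 𝒟 (X.prod Y) (V (List.ofFn (pl 𝒟 X K pr hpr) ++
        l.map (Fac.pull (LinearMap.fst ℚ X.H Y.H) (isHom_fst X Y))))
      (val (List.ofFn (pl 𝒟 X K pr hpr) ++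
        l.map (Fac.pull (LinearMap.fst ℚ X.H Y.H) (isHom_fst X Y)))))
    (F' : MultilinearMap ℚ (fun _ : V l ⊕ Fin k => (X.prod Y).H) ℂ)
    (hF' : ∀ v : V l ⊕ Fin k → X.H × Y.H,
      F' v = val l (fun a => (v (Sum.inl a)).1) * η (fun a => (v (Sum.inr a)).2)) :
    Good 𝒟 (X.prod Y) (V l ⊕ Fin k) F' := by
  obtain ⟨e0, he0⟩ := val_pull (𝒟 := 𝒟) (X := X) (Y := X.prod Y) (LinearMap.fst ℚ X.H Y.H)
    (isHom_fst X Y) l
  obtain ⟨e1, he1⟩ := val_ofFn (pl 𝒟 X K pr hpr)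
  obtain ⟨e3, he3⟩ := val_append (List.ofFn (pl 𝒟 X K pr hpr))
    (l.map (Fac.pull (LinearMap.fst ℚ X.H Y.H) (isHom_fst X Y)))
  let s : (Σ _ : Fin k, Fin 1) ≃ Fin k := Equiv.sigmaUnique (Fin k) fun _ => Fin 1
  let e : Equiv.Perm (Fin k) → (V (List.ofFn (pl 𝒟 X K pr hpr) ++
      l.map (Fac.pull (LinearMap.fst ℚ X.H Y.H) (isHom_fst X Y))) ≃ V l ⊕ Fin k) := fun τ =>
    e3.symm.trans ((Equiv.sumComm _ _).trans (Equiv.sumCongr e0 ((e1.symm.trans s).trans τ)))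
  have hel : ∀ (τ : Equiv.Perm (Fin k)) (c : Fin k),
      e τ (e3 (Sum.inl (e1 ⟨c, (0 : Fin 1)⟩))) = Sum.inr (τ c) := by
    intro τ c
    change (Equiv.sumCongr e0 ((e1.symm.trans s).trans τ)) (Equiv.sumComm _ _
      (e3.symm (e3 (Sum.inl (e1 ⟨c, (0 : Fin 1)⟩))))) = _
    rw [Equiv.symm_apply_apply]
    change Sum.inr (τ (s (e1.symm (e1 ⟨c, (0 : Fin 1)⟩)))) = _
    rw [Equiv.symm_apply_apply]
    rfl
  have her : ∀ (τ : Equiv.Perm (Fin k)) (x : V (l.map (Fac.pull (𝒟 := 𝒟) (X := X)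
      (Y := X.prod Y) (LinearMap.fst ℚ X.H Y.H) (isHom_fst X Y)))), e τ (e3 (Sum.inr x)) = Sum.inl (e0 x) := by
    intro τ x
    change (Equiv.sumCongr e0 ((e1.symm.trans s).trans τ)) (Equiv.sumComm _ _
      (e3.symm (e3 (Sum.inr x)))) = _
    rw [Equiv.symm_apply_apply]
    rfl
  have hdec : F' = ∑ τ : Equiv.Perm (Fin k), ((Equiv.Perm.sign τ : ℤ) : ℂ) •
      MultilinearMap.domDomCongr (e τ) (val (List.ofFn (pl 𝒟 X K pr hpr) ++
        l.map (Fac.pull (LinearMap.fst ℚ X.H Y.H) (isHom_fst X Y)))) := by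
    ext v
    refine (hF' v).trans ?_
    rw [hη, Matrix.det_apply', Finset.mul_sum, sum_apply]
    refine Finset.sum_congr rfl fun τ _ => ?_
    rw [smul_apply, smul_eq_mul, MultilinearMap.domDomCongr_apply, he3, he1, he0]
    have e5 : (fun x => (LinearMap.fst ℚ X.H Y.H) (v (e τ (e3 (Sum.inr (e0.symm x)))))) =
        fun x => (v (Sum.inl x)).1 := by
      funext x
      rw [her, Equiv.apply_symm_apply]
      rfl
    have e6 : ∀ c : Fin k, ((pl 𝒟 X K pr hpr c).F fun j => v (e τ (e3 (Sum.inl (e1 ⟨c, j⟩))))) =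
        K.δ fun _ => pr c (v (Sum.inr (τ c))).2 := by
      intro c
      change (K.δ fun j : Fin 1 => pr c (v (e τ (e3 (Sum.inl (e1 ⟨c, j⟩))))).2) = _
      congr 1
      funext j
      fin_cases j
      change pr c (v (e τ (e3 (Sum.inl (e1 ⟨c, (0 : Fin 1)⟩))))).2 = _
      rw [hel]
    rw [Finset.prod_congr rfl fun c _ => e6 c]
    refine Eq.trans ?_ (congrArg (fun t => ((Equiv.Perm.sign τ : ℤ) : ℂ) *
      ((∏ c, K.δ fun _ => pr c (v (Sum.inr (τ c))).2) * val l t)) e5.symm)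
    simp only [Matrix.of_apply]
    ring
  rw [hdec]
  refine Submodule.sum_mem (goodSub h2 𝒟 (X.prod Y) (V l ⊕ Fin k)) fun τ _ => ?_
  refine Submodule.smul_mem _ _ ?_
  exact h3 _ _ _ _ (e τ) _ hg

/-- The induction step. -/
theorem step (h2 : S_good_lin) (h3 : S_good_reindex) (h6 : S_ins) (h7 : S_pol) (h11 : S_weil)
    (h12 : S_pow) {A : AV} {n : ℕ} (hn : n ≠ 1) (D : KO A n)
    (hD : n ≠ 1 → D.s ≠ 0 ∧ ∃ r ∈ 𝒟, n + D.s.natAbs = 2 * r)
    (h : Fin n → (X.H →ₗ[ℚ] A.H)) (hh : ∀ k, IsHom X A (h k))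
    (l : List (Fac 𝒟 X)) (hl : LBal (.det A n D hD h hh :: l))
    (IH : ∀ (Y : AV) (l' : List (Fac 𝒟 Y)), cnt l' = cnt l → LBal l' →
      Good 𝒟 Y (V l') (val l')) :
    Good 𝒟 X (V (.det A n D hD h hh :: l)) (val (.det A n D hD h hh :: l)) := by
  obtain ⟨hs, hr⟩ := hD hn
  obtain ⟨E, K, Y, pr, L, η, b, a1, a2, a3, a4, a5, a6, a7, a8, a9⟩ := pw h12 D hs
  let l' : List (Fac 𝒟 (X.prod Y)) := l.map (Fac.pull (LinearMap.fst ℚ X.H Y.H) (isHom_fst X Y))
  have hcnt : cnt (List.ofFn (pl 𝒟 X K pr a1) ++ l') = cnt l := by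
    unfold cnt
    rw [List.map_append, List.sum_append, List.map_ofFn, List.sum_ofFn]
    have e1 : ∑ c, (Fac.big ∘ pl 𝒟 X K pr a1) c = 0 := Finset.sum_eq_zero fun c _ => rfl
    have e2 : List.map Fac.big l' = List.map Fac.big l := by
      rw [List.map_map]
      refine List.map_congr_left fun f _ => ?_
      exact pull_big _ _ f
    rw [e1, e2, zero_add]
  have hbal : LBal (List.ofFn (pl 𝒟 X K pr a1) ++ l') := by
    intro d
    have e0 := hl d
    rw [List.map_cons, List.sum_cons] at e0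
    rw [List.map_append, List.sum_append, List.map_ofFn, List.sum_ofFn]
    have e1 : ∑ c, ((fun f : Fac 𝒟 (X.prod Y) => f.wt d) ∘ pl 𝒟 X K pr a1) c =
        (Fac.det A n D hD h hh : Fac 𝒟 X).wt d := by
      change ∑ _c : Fin D.s.natAbs, (if K.d = d then K.s else 0) = (if D.d = d then D.s else 0)
      rw [Finset.sum_const, Finset.card_univ, Fintype.card_fin, a2, nsmul_eq_mul]
      split_ifs
      · exact a3
      · rw [mul_zero]
    have e2 : List.map (fun f => f.wt d) l' = List.map (fun f => f.wt d) l := by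
      rw [List.map_map]
      refine List.map_congr_left fun f _ => ?_
      exact pull_wt _ _ f d
    rw [e1, e2, e0]
  have hg1 := IH _ _ hcnt hbal
  -- the first good form
  let F' : MultilinearMap ℚ (fun _ : V l ⊕ Fin D.s.natAbs => (X.prod Y).H) ℂ :=
    mulF ((val l).compLinearMap fun _ => LinearMap.fst ℚ X.H Y.H)
      (η.toMultilinearMap.compLinearMap fun _ => LinearMap.snd ℚ X.H Y.H)
  have hF' : Good 𝒟 (X.prod Y) (V l ⊕ Fin D.s.natAbs) F' :=
    step_F h2 h3 K pr a1 η a7 l hg1 F' fun v => rfl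
  -- the second good form
  let G0 : MultilinearMap ℚ (fun _ : Fin n ⊕ Fin D.s.natAbs => (A.prod Y).H) ℂ :=
    mulF (D.δ.toMultilinearMap.compLinearMap fun _ => LinearMap.fst ℚ A.H Y.H)
      (L.δ.toMultilinearMap.compLinearMap fun _ => LinearMap.snd ℚ A.H Y.H)
  have hG0 : Good 𝒟 (A.prod Y) (Fin n ⊕ Fin D.s.natAbs) G0 :=
    h11 𝒟 A Y n D.s.natAbs D L a4 a5 a6 hr a8 G0 fun v => rfl
  let G' : MultilinearMap ℚ (fun _ : Fin n ⊕ Fin D.s.natAbs => (X.prod Y).H) ℂ :=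
    mulF (D.δ.toMultilinearMap.compLinearMap fun k => (h k).comp (LinearMap.fst ℚ X.H Y.H))
      (L.δ.toMultilinearMap.compLinearMap fun _ => LinearMap.snd ℚ X.H Y.H)
  have hG' : Good 𝒟 (X.prod Y) (Fin n ⊕ Fin D.s.natAbs) G' :=
    h7 𝒟 X A Y n D.s.natAbs D.δ L.δ G0 (fun v => rfl) hG0 h hh G' fun v => rfl
  have hfin := h6 𝒟 X Y (V l) (Fin n) D.s.natAbs D.s.natAbs b η L.δ a9 (val l)
    (D.δ.toMultilinearMap.compLinearMap h) F' G' (fun v => rfl) (fun v => rfl) hF' hG'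
  exact good_eq h3 (Equiv.sumComm (V l) (Fin n)) (fun v => mul_comm _ _) hfin

end Pool.Agent.Q61.WT
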